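import Pool.Agent.W670.ML.Defs2

set_option autoImplicit false

/-!
# Project ML2 (helper670), part BD: the bound of the power of the number of fields
-/

namespace Pool.Agent.W612.ML2

open NumberField Pool.Agent.W670.ML

theorem real_part (D X δ : ℝ) (hD : 1 ≤ D) (hX : 1 ≤ X) (hδ : 0 < δ) (n m r q : ℕ) (hq : 1 ≤ q)
    (hm : 1 ≤ m) (hn : 1 ≤ n) (hqn : q * n ≤ n ^ r) :
    (D ^ (q * n) * X ^ (r * q)) ^ ((1 : ℝ) / ((q * m : ℕ) : ℝ) + δ) ≤
      D ^ ((n : ℝ) / (m : ℝ) + (n : ℝ) ^ r * δ) *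
        X ^ ((r : ℝ) / (m : ℝ) + (r : ℝ) * (n : ℝ) ^ r * δ) := by
  have hD0 : 0 ≤ D := by linarith
  have hX0 : 0 ≤ X := by linarith
  have hq' : (0 : ℝ) < q := by exact_mod_cast hq
  have hm' : (0 : ℝ) < m := by exact_mod_cast hm
  have hqn' : (q : ℝ) * n ≤ (n : ℝ) ^ r := by exact_mod_cast hqn
  have hq2 : (q : ℝ) ≤ (n : ℝ) ^ r := by
    have h1 : q ≤ q * n := Nat.le_mul_of_pos_right q hn
    exact_mod_cast h1.trans hqn
  rw [Real.mul_rpow (by positivity) (by positivity), ← Real.rpow_natCast D, ← Real.rpow_natCast X,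
    ← Real.rpow_mul hD0, ← Real.rpow_mul hX0]
  have e1 : ((q * n : ℕ) : ℝ) * ((1 : ℝ) / ((q * m : ℕ) : ℝ) + δ) ≤
      (n : ℝ) / (m : ℝ) + (n : ℝ) ^ r * δ := by
    have : ((q * n : ℕ) : ℝ) * ((1 : ℝ) / ((q * m : ℕ) : ℝ) + δ) =
        (n : ℝ) / (m : ℝ) + (q : ℝ) * n * δ := by
      push_cast
      field_simp
    rw [this]
    have := mul_le_mul_of_nonneg_right hqn' hδ.le
    linarith
  have e2 : ((r * q : ℕ) : ℝ) * ((1 : ℝ) / ((q * m : ℕ) : ℝ) + δ) ≤
      (r : ℝ) / (m : ℝ) + (r : ℝ) * (n : ℝ) ^ r * δ := by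
    have : ((r * q : ℕ) : ℝ) * ((1 : ℝ) / ((q * m : ℕ) : ℝ) + δ) =
        (r : ℝ) / (m : ℝ) + (r : ℝ) * q * δ := by
      push_cast
      field_simp
    rw [this]
    have hr0 : (0 : ℝ) ≤ r := Nat.cast_nonneg r
    have h3 := mul_le_mul_of_nonneg_left hq2 hr0
    have := mul_le_mul_of_nonneg_right h3 hδ.le
    linarith
  exact mul_le_mul (Real.rpow_le_rpow_of_exponent_le hD e1)
    (Real.rpow_le_rpow_of_exponent_le hX e2) (by positivity) (by positivity)

/-- Counting functions by fibres. -/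
theorem count {α β : Type} [Fintype α] (r B : ℕ) (f : (Fin r → α) → β) (g : α → β)
    (U : Set β) (hU : U.Finite) (hfU : ∀ t, f t ∈ U) (S : β → Set β)
    (hS : ∀ b ∈ U, (S b).Finite ∧ (S b).ncard ≤ B) (hg : Function.Injective g)
    (hgS : ∀ t i, g (t i) ∈ S (f t)) :
    Fintype.card α ^ r ≤ B ^ r * U.ncard := by
  classical
  have h1 : Fintype.card α ^ r = (Finset.univ : Finset (Fin r → α)).card := by
    rw [Finset.card_univ, Fintype.card_fun, Fintype.card_fin]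
  rw [h1, Set.ncard_eq_toFinset_card _ hU]
  refine Finset.card_le_mul_card_image_of_maps_to (f := f) (fun t _ => ?_) (B ^ r) ?_
  · rw [Set.Finite.mem_toFinset]
    exact hfU t
  · intro b hb
    rw [Set.Finite.mem_toFinset] at hb
    obtain ⟨hfin, hcard⟩ := hS b hb
    have h2 : (Fintype.piFinset fun _ : Fin r => hfin.toFinset).card ≤ B ^ r := by
      rw [Fintype.card_piFinset, Finset.prod_const, Finset.card_univ, Fintype.card_fin]
      refine Nat.pow_le_pow_left ?_ r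
      rw [← Set.ncard_eq_toFinset_card _ hfin]
      exact hcard
    refine le_trans ?_ h2
    refine Finset.card_le_card_of_injOn (fun t i => g (t i)) ?_ ?_
    · intro t ht
      rw [Finset.mem_coe, Finset.mem_filter] at ht
      rw [Finset.mem_coe, Fintype.mem_piFinset]
      intro i
      rw [Set.Finite.mem_toFinset, ← ht.2]
      exact hgS t i
    · intro t _ t' _ h
      funext i
      exact hg (congrFun h i)

theorem bd (h1 : S_PS) (h2 : S_AB) (h3 : S_UB) (h4 : S_SF) (h5 : S_MI) : S_BD := by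
  classical
  intro hU d n m r G hn hr hT hm δ hδ
  obtain ⟨hm1, hmn, -⟩ := (h5 n G hn hT).2 m hm
  rcases Nat.eq_zero_or_pos d with hd | hd
  · refine ⟨1, one_pos, ?_⟩
    intro K _ _ hK
    rw [hd] at hK
    have := Module.finrank_pos (R := ℚ) (M := K)
    omega
  choose Cf hCf using h4
  have hc : ∀ q : ℕ, ∃ c : ℝ, 0 < c ∧ (1 ≤ q → ∀ Y : ℝ, 0 < Y →
      ((∑ H ∈ bigInd (q * n * d) (q * m), Pool.Agent.W670.ML.N ℚ (q * n * d) H Y : ℕ) : ℝ) ≤
        c * Y ^ ((1 : ℝ) / ((q * m : ℕ) : ℝ) + δ)) := by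
    intro q
    rcases Nat.eq_zero_or_pos q with hq | hq
    · exact ⟨1, one_pos, fun h => by omega⟩
    · obtain ⟨c, hc0, hc⟩ := h3 hU (q * n * d) (q * m) (by
        have : 1 * 2 * 1 ≤ q * n * d := Nat.mul_le_mul (Nat.mul_le_mul hq hn) hd
        omega) (Nat.mul_pos hq hm1) δ hδ
      exact ⟨c, hc0, fun _ => hc⟩
  choose cc hcc0 hcc using hc
  set C0 : ℕ := 1 + ∑ N ∈ Finset.range (n ^ r * d + 1), Cf N with hC0
  have hC0le : ∀ N, N ≤ n ^ r * d → Cf N ≤ C0 := by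
    intro N hN
    have := Finset.single_le_sum (f := Cf) (fun i _ => Nat.zero_le _)
      (Finset.mem_range.2 (show N < n ^ r * d + 1 from Nat.lt_succ_of_le hN))
    omega
  have hsum0 : 0 ≤ ∑ q ∈ Finset.Icc 1 (n ^ r), cc q :=
    Finset.sum_nonneg fun q _ => (hcc0 q).le
  have hC0pos : (0 : ℝ) < (C0 : ℝ) ^ r := by
    have : 0 < C0 := by omega
    have : (0 : ℝ) < C0 := by exact_mod_cast this
    positivity
  refine ⟨(C0 : ℝ) ^ r * (1 + ∑ q ∈ Finset.Icc 1 (n ^ r), cc q), by positivity, ?_⟩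
  intro K _ _ hK X hX
  have hac : IsAlgClosure ℚ (AlgebraicClosure K) :=
    IsAlgClosure.ofAlgebraic ℚ K (AlgebraicClosure K)
  have hD1 : (1 : ℝ) ≤ ((discr K).natAbs : ℝ) := by
    have : 1 ≤ (discr K).natAbs := Nat.one_le_iff_ne_zero.2 (Int.natAbs_ne_zero.2 (discr_ne_zero K))
    exact_mod_cast this
  have hR0 : (0 : ℝ) ≤ ((discr K).natAbs : ℝ) ^ ((n : ℝ) / (m : ℝ) + (n : ℝ) ^ r * δ) *
          X ^ ((r : ℝ) / (m : ℝ) + (r : ℝ) * (n : ℝ) ^ r * δ) := by positivity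
  by_cases hF : (fields K n G X).Finite
  swap
  · have h0 : Pool.Agent.W670.ML.N K n G X = 0 := Set.Infinite.ncard hF
    rw [h0, Nat.cast_zero, zero_pow (by omega), mul_assoc]
    exact mul_nonneg (by positivity) hR0
  have hFt : Fintype ↥(fields K n G X) := hF.fintype
  -- the map to the subfields
  obtain ⟨f, hf⟩ : ∃ f : (Fin r → ↥(fields K n G X)) → IntermediateField ℚ (AlgebraicClosure K),
      f = fun t => (⨆ i, (t i).1).restrictScalars ℚ := ⟨_, rfl⟩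
  obtain ⟨S, hS⟩ : ∃ S : ℕ → Set (IntermediateField ℚ (AlgebraicClosure K)),
      S = fun q => {M | ∃ t : Fin r → ↥(fields K n G X),
        Module.finrank K ↥(⨆ i, (t i).1) = q * n ∧ f t = M} := ⟨_, rfl⟩
  have hfr : ∀ t : Fin r → ↥(fields K n G X), ∀ q : ℕ,
      Module.finrank K ↥(⨆ i, (t i).1) = q * n → Module.finrank ℚ ↥(f t) = q * n * d := by
    intro t q h
    have h6 : Module.finrank ℚ ↥(f t) = Module.finrank ℚ ↥(⨆ i, (t i).1) := by
      rw [hf]
      rfl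
    rw [h6, ← Module.finrank_mul_finrank ℚ K ↥(⨆ i, (t i).1), h, hK, mul_comm]
  have hPS : ∀ t : Fin r → ↥(fields K n G X), ∃ q : ℕ, 1 ≤ q ∧ q * n ≤ n ^ r ∧
      Module.finrank K ↥(⨆ i, (t i).1) = q * n ∧
      (∃ _ : NumberField ↥(⨆ i, (t i).1), ((discr ↥(⨆ i, (t i).1)).natAbs : ℝ) ≤
        ((discr K).natAbs : ℝ) ^ (q * n) * X ^ (r * q)) ∧
      ∀ (N : ℕ) (H : Subgroup (Equiv.Perm (Fin N))),
        HasGroup ℚ (AlgebraicClosure K) N H ((⨆ i, (t i).1).restrictScalars ℚ) →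
        ∀ h ∈ H, h ≠ 1 → q * m ≤ ind h := by
    intro t
    exact h1 K n m r G X (fun i => (t i).1) hn hr hT hm hX (fun i => (t i).2)
  have hSq : ∀ q, 1 ≤ q → (S q).Finite ∧ (((S q).ncard : ℕ) : ℝ) ≤
      cc q * (((discr K).natAbs : ℝ) ^ (q * n) * X ^ (r * q)) ^
        ((1 : ℝ) / ((q * m : ℕ) : ℝ) + δ) := by
    intro q hq
    have hqnd : 0 < q * n * d := Nat.mul_pos (Nat.mul_pos hq (by omega)) hd
    have hab := h2 (q * n * d) (q * m) (AlgebraicClosure K) hqnd (S q)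
      (((discr K).natAbs : ℝ) ^ (q * n) * X ^ (r * q)) (by
        intro M hM
        rw [hS] at hM
        obtain ⟨t, ht, rfl⟩ := hM
        obtain ⟨q', hq'1, -, hq'3, ⟨nf, hq'4⟩, hq'5⟩ := hPS t
        have hqq : q' = q := Nat.eq_of_mul_eq_mul_right (by omega) (hq'3.symm.trans ht)
        rw [hqq] at hq'4 hq'5
        refine ⟨hfr t q ht, ?_, ?_⟩
        · rw [hf]
          have e : ↥(⨆ i, (t i).1) ≃+* ↥((⨆ i, (t i).1).restrictScalars ℚ) := RingEquiv.refl _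
          have hNF : NumberField ↥((⨆ i, (t i).1).restrictScalars ℚ) :=
            NumberField.of_ringEquiv (K := ↥(⨆ i, (t i).1))
              (L := ↥((⨆ i, (t i).1).restrictScalars ℚ)) (e := e)
          refine ⟨hNF, ?_⟩
          have hdisc : discr ↥((⨆ i, (t i).1).restrictScalars ℚ) = discr ↥(⨆ i, (t i).1) := by
            symm
            exact NumberField.discr_eq_discr_of_ringEquiv _ e
          rw [hdisc]
          exact hq'4
        · intro H hH
          rw [hf] at hH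
          exact hq'5 (q * n * d) H hH)
    refine ⟨hab.1, ?_⟩
    have hY : (0 : ℝ) < ((discr K).natAbs : ℝ) ^ (q * n) * X ^ (r * q) := by positivity
    refine le_trans ?_ (hcc q hq _ hY)
    exact_mod_cast hab.2
  -- the union
  obtain ⟨U, hUdef⟩ : ∃ U : Set (IntermediateField ℚ (AlgebraicClosure K)),
      U = ⋃ q ∈ Finset.Icc 1 (n ^ r), S q := ⟨_, rfl⟩
  have hUfin : U.Finite := by
    rw [hUdef]
    refine Set.Finite.biUnion (Finset.finite_toSet _) fun q hq => ?_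
    exact (hSq q (Finset.mem_Icc.1 hq).1).1
  have hUcard : U.ncard ≤ ∑ q ∈ Finset.Icc 1 (n ^ r), (S q).ncard := by
    rw [hUdef]
    exact Finset.set_ncard_biUnion_le _ _
  have hfU : ∀ t, f t ∈ U := by
    intro t
    obtain ⟨q, hq1, hq2, hq3, -, -⟩ := hPS t
    rw [hUdef, Set.mem_iUnion₂]
    refine ⟨q, Finset.mem_Icc.2 ⟨hq1, (Nat.le_mul_of_pos_right q (by omega)).trans hq2⟩, ?_⟩
    rw [hS]
    exact ⟨t, hq3, rfl⟩
  have hinj : Function.Injective (fun L : ↥(fields K n G X) => L.1.restrictScalars ℚ) := by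
    intro L L' h
    exact Subtype.ext (IntermediateField.restrictScalars_injective ℚ h)
  have hcount := count (α := ↥(fields K n G X)) r C0 f
    (fun L : ↥(fields K n G X) => L.1.restrictScalars ℚ) U hUfin hfU
    (fun M => {K' : IntermediateField ℚ (AlgebraicClosure K) | K' ≤ M}) (by
      intro M hM
      rw [hUdef, Set.mem_iUnion₂] at hM
      obtain ⟨q, hq, hM⟩ := hM
      rw [hS] at hM
      obtain ⟨t, ht, rfl⟩ := hM
      obtain ⟨q', hq'1, hq'2, hq'3, -, -⟩ := hPS t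
      have hqq : q' = q := Nat.eq_of_mul_eq_mul_right (by omega) (hq'3.symm.trans ht)
      rw [hqq] at hq'1 hq'2
      have hpos : 0 < q * n * d := Nat.mul_pos (Nat.mul_pos hq'1 (by omega)) hd
      obtain ⟨g1, g2⟩ := hCf (q * n * d) (AlgebraicClosure K) (f t) (hfr t q ht) hpos
      exact ⟨g1, g2.trans (hC0le _ (Nat.mul_le_mul_right d hq'2))⟩) hinj (by
      intro t i
      rw [hf]
      intro x hx
      exact (le_iSup (fun i => (t i).1) i) hx)
  have hN : Pool.Agent.W670.ML.N K n G X = Fintype.card ↥(fields K n G X) := by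
    unfold Pool.Agent.W670.ML.N
    rw [← Nat.card_coe_set_eq, Nat.card_eq_fintype_card]
  rw [hN]
  have e1 : ((Fintype.card ↥(fields K n G X) : ℕ) : ℝ) ^ r ≤ (C0 : ℝ) ^ r * (U.ncard : ℝ) := by
    exact_mod_cast hcount
  have e2 : (U.ncard : ℝ) ≤ ∑ q ∈ Finset.Icc 1 (n ^ r), ((S q).ncard : ℝ) := by
    exact_mod_cast hUcard
  have e3 : ∑ q ∈ Finset.Icc 1 (n ^ r), ((S q).ncard : ℝ) ≤
      (∑ q ∈ Finset.Icc 1 (n ^ r), cc q) *
        (((discr K).natAbs : ℝ) ^ ((n : ℝ) / (m : ℝ) + (n : ℝ) ^ r * δ) *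
          X ^ ((r : ℝ) / (m : ℝ) + (r : ℝ) * (n : ℝ) ^ r * δ)) := by
    rw [Finset.sum_mul]
    refine Finset.sum_le_sum fun q hq => ?_
    have hq1 := (Finset.mem_Icc.1 hq).1
    by_cases hne : (S q).Nonempty
    · obtain ⟨M, hM⟩ := hne
      rw [hS] at hM
      obtain ⟨t, ht, -⟩ := hM
      obtain ⟨q', hq'1, hq'2, hq'3, -, -⟩ := hPS t
      have hqq : q' = q := Nat.eq_of_mul_eq_mul_right (by omega) (hq'3.symm.trans ht)
      rw [hqq] at hq'2
      refine (hSq q hq1).2.trans (mul_le_mul_of_nonneg_left ?_ (hcc0 q).le)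
      exact real_part _ X δ hD1 hX hδ n m r q hq1 hm1 (by omega) hq'2
    · rw [Set.not_nonempty_iff_eq_empty.1 hne, Set.ncard_empty, Nat.cast_zero]
      exact mul_nonneg (hcc0 q).le hR0
  have e4 := mul_le_mul_of_nonneg_left (e2.trans e3) hC0pos.le
  refine e1.trans (e4.trans ?_)
  generalize ((discr K).natAbs : ℝ) ^ ((n : ℝ) / (m : ℝ) + (n : ℝ) ^ r * δ) = d1 at hR0 ⊢
  generalize X ^ ((r : ℝ) / (m : ℝ) + (r : ℝ) * (n : ℝ) ^ r * δ) = x1 at hR0 ⊢
  generalize ∑ q ∈ Finset.Icc 1 (n ^ r), cc q = s1 at hsum0 ⊢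
  have e5 : (C0 : ℝ) ^ r * (1 + s1) * d1 * x1 = (C0 : ℝ) ^ r * ((1 + s1) * (d1 * x1)) := by ring
  rw [e5]
  refine mul_le_mul_of_nonneg_left ?_ hC0pos.le
  refine mul_le_mul_of_nonneg_right ?_ hR0
  linarith

end Pool.Agent.W612.ML2
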